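import Mathlib
import Pool.Agent.Lib.MP_4caafd_al.Defs

/-!
Three constructions of topological semigroups that contain a given semigroup as a discrete
subsemigroup.
-/

namespace Pool.Agent.Lib.MP_4caafd_al.Inv

open Pool.Agent.Lib.MP_4caafd_al Topology Filter Set TopologicalSpace

universe u

theorem surj_of_basis {S Y : Type u} [Semigroup S] [Semigroup Y] (hS : IsCClosed TzS.{u} S)
    (ι : S →ₙ* Y) (hι : Function.Injective ι) (𝓑 : Set (Set Y))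
    (inter : ∀ B₁ ∈ 𝓑, ∀ B₂ ∈ 𝓑, ∀ u ∈ B₁ ∩ B₂, ∃ B₃ ∈ 𝓑, u ∈ B₃ ∧ B₃ ⊆ B₁ ∩ B₂)
    (cover : ∀ u, ∃ B ∈ 𝓑, u ∈ B)
    (compl : ∀ B ∈ 𝓑, ∀ u ∉ B, ∃ B' ∈ 𝓑, u ∈ B' ∧ B' ⊆ Bᶜ)
    (sep : ∀ u v, (∀ B ∈ 𝓑, u ∈ B ↔ v ∈ B) → u = v)
    (mul : ∀ u v, ∀ B ∈ 𝓑, u * v ∈ B →
      ∃ B₁ ∈ 𝓑, ∃ B₂ ∈ 𝓑, u ∈ B₁ ∧ v ∈ B₂ ∧ ∀ a ∈ B₁, ∀ b ∈ B₂, a * b ∈ B)
    (single : ∀ s, {ι s} ∈ 𝓑) (dense : ∀ B ∈ 𝓑, ∀ u ∈ B, ∃ s, ι s ∈ B) :
    Function.Surjective ι := by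
  let _ : TopologicalSpace Y := generateFrom 𝓑
  have hb : IsTopologicalBasis 𝓑 :=
    ⟨inter, sUnion_eq_univ_iff.2 cover, rfl⟩
  have cl : ∀ B ∈ 𝓑, IsClopen B := fun B hB => ⟨⟨isOpen_iff_mem_nhds.2 fun u hu =>
    hb.mem_nhds_iff.2 (compl B hB u hu)⟩, hb.isOpen hB⟩
  have hY : TzS Y := by
    refine ⟨⟨continuous_iff_continuousAt.2 fun ⟨u, v⟩ => ?_⟩, ⟨fun u v huv => ?_⟩, ?_⟩
    · intro T hT
      obtain ⟨B, hB, h1, h2⟩ := hb.mem_nhds_iff.1 hT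
      obtain ⟨B₁, c1, B₂, c2, c3, c4, c5⟩ := mul u v B hB h1
      exact mem_map.2 (mem_of_superset
        (prod_mem_nhds ((hb.isOpen c1).mem_nhds c3) ((hb.isOpen c2).mem_nhds c4))
        fun p (hp : p ∈ B₁ ×ˢ B₂) => h2 (c5 _ hp.1 _ hp.2))
    · by_contra h
      refine huv (sep u v fun B hB => ⟨fun hu => by_contra fun hv => h ?_,
        fun hv => by_contra fun hu => h ?_⟩)
      · exact ⟨B, Bᶜ, (cl B hB).2, (cl B hB).compl.2, hu, hv, disjoint_compl_right⟩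
      · exact ⟨Bᶜ, B, (cl B hB).compl.2, (cl B hB).2, hu, hv, disjoint_compl_left⟩
    · refine isTopologicalBasis_of_isOpen_of_nhds (fun s hs => hs.2) fun u T hu hT => ?_
      obtain ⟨B, hB, h1, h2⟩ := hb.mem_nhds_iff.1 (hT.mem_nhds hu)
      exact ⟨B, cl B hB, h1, h2⟩
  have he : @IsEmbedding S Y ⊥ _ ι := by
    let _ : TopologicalSpace S := ⊥
    have : DiscreteTopology S := ⟨rfl⟩
    refine (IsOpenEmbedding.of_continuous_injective_isOpenMap continuous_of_discreteTopology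
      hι fun s _ => ?_).isEmbedding
    rw [← biUnion_of_singleton s, image_iUnion₂]
    refine isOpen_biUnion fun x _ => ?_
    rw [image_singleton]
    exact hb.isOpen (single x)
  intro u
  have : u ∈ closure (range ι) := hb.mem_closure_iff.2 fun B hB hu => by
    obtain ⟨s, hs⟩ := dense B hB u hu
    exact ⟨ι s, hs, s, rfl⟩
  rwa [(hS Y hY ι he).closure_eq] at this

section Order

variable {S : Type u} [Semigroup S]

/-- An order relation that is compatible with the multiplication. -/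
structure Compat (le : S → S → Prop) : Prop where
  refl : ∀ a, le a a
  trans : ∀ {a b c}, le a b → le b c → le a c
  anti : ∀ {a b}, le a b → le b a → a = b
  mul : ∀ {a b c d}, le a b → le c d → le (a * c) (b * d)

/-- Directed lower sets. -/
@[ext] structure DL (le : S → S → Prop) : Type u where
  car : Set S
  ne : car.Nonempty
  low : ∀ {a b}, le a b → b ∈ car → a ∈ car
  dir : ∀ a ∈ car, ∀ b ∈ car, ∃ c ∈ car, le a c ∧ le b c

variable {le : S → S → Prop}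

/-- The semigroup of directed lower sets. -/
@[reducible] def Compat.sg (h : Compat le) : Semigroup (DL le) where
  mul A B :=
    { car := {c | ∃ a ∈ A.car, ∃ b ∈ B.car, le c (a * b)}
      ne := by
        obtain ⟨a, ha⟩ := A.ne
        obtain ⟨b, hb⟩ := B.ne
        exact ⟨a * b, a, ha, b, hb, h.refl _⟩
      low := fun h1 ⟨a, ha, b, hb, h2⟩ => ⟨a, ha, b, hb, h.trans h1 h2⟩
      dir := by
        rintro c ⟨a, ha, b, hb, h1⟩ c' ⟨a', ha', b', hb', h2⟩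
        obtain ⟨x, hx, x1, x2⟩ := A.dir a ha a' ha'
        obtain ⟨y, hy, y1, y2⟩ := B.dir b hb b' hb'
        exact ⟨x * y, ⟨x, hx, y, hy, h.refl _⟩, h.trans h1 (h.mul x1 y1), h.trans h2 (h.mul x2 y2)⟩ }
  mul_assoc A B C := by
    ext x
    constructor
    · rintro ⟨y, ⟨a, ha, b, hb, h1⟩, c, hc, h2⟩
      exact ⟨a, ha, b * c, ⟨b, hb, c, hc, h.refl _⟩,
        mul_assoc a b c ▸ h.trans h2 (h.mul h1 (h.refl c))⟩
    · rintro ⟨a, ha, y, ⟨b, hb, c, hc, h1⟩, h2⟩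
      exact ⟨a * b, ⟨a, ha, b, hb, h.refl _⟩, c, hc,
        (mul_assoc a b c).symm ▸ h.trans h2 (h.mul (h.refl a) h1)⟩

theorem Compat.no_chain (h : Compat le) (hS : IsCClosed TzS.{u} S) (f : ℕ → S)
    (hf : ∀ n, le (f n) (f (n + 1))) : ∃ n, f n = f (n + 1) := by
  let _ := h.sg
  let ι : S →ₙ* DL le :=
    { toFun := fun s => ⟨{c | le c s}, ⟨s, h.refl s⟩, fun h1 h2 => h.trans h1 h2,
        fun a ha b hb => ⟨s, h.refl s, ha, hb⟩⟩
      map_mul' := fun a b => DL.ext (Set.ext fun c => ⟨fun hc => ⟨a, h.refl a, b, h.refl b, hc⟩,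
        fun ⟨x, hx, y, hy, hc⟩ => h.trans hc (h.mul hx hy)⟩) }
  have mem : ∀ s c, c ∈ (ι s).car ↔ le c s := fun _ _ => Iff.rfl
  have mono : ∀ m n, m ≤ n → le (f m) (f n) := fun m n hmn => by
    induction n, hmn using Nat.le_induction with
    | base => exact h.refl _
    | succ n _ ih => exact h.trans ih (hf n)
  have surj := surj_of_basis hS ι
    (fun a b hab => h.anti ((mem b a).1 (hab ▸ (mem a a).2 (h.refl a)))
      ((mem a b).1 (hab ▸ (mem b b).2 (h.refl b))))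
    {N | ∃ (a : S) (A : DL le), N = {B | a ∈ B.car ∧ B.car ⊆ A.car}}
    (by
      rintro _ ⟨a, A, rfl⟩ _ ⟨a', A', rfl⟩ B ⟨h1, h2⟩
      obtain ⟨c, hc, c1, c2⟩ := B.dir a h1.1 a' h2.1
      exact ⟨_, ⟨c, B, rfl⟩, ⟨hc, subset_rfl⟩, fun D hD =>
        ⟨⟨D.low c1 hD.1, hD.2.trans h1.2⟩, D.low c2 hD.1, hD.2.trans h2.2⟩⟩)
    (fun B => ⟨_, ⟨B.ne.some, B, rfl⟩, B.ne.some_mem, subset_rfl⟩)
    (by
      rintro _ ⟨a, A, rfl⟩ B hB
      by_cases h1 : a ∈ B.car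
      · obtain ⟨b, hb, hb'⟩ := not_subset.1 fun h2 => hB ⟨h1, h2⟩
        exact ⟨_, ⟨b, B, rfl⟩, ⟨hb, subset_rfl⟩, fun D hD hD' => hb' (hD'.2 hD.1)⟩
      · exact ⟨_, ⟨B.ne.some, B, rfl⟩, ⟨B.ne.some_mem, subset_rfl⟩,
          fun D hD hD' => h1 (hD.2 hD'.1)⟩)
    (fun A B H => DL.ext (Subset.antisymm
      ((H _ ⟨B.ne.some, B, rfl⟩).2 ⟨B.ne.some_mem, subset_rfl⟩).2
      ((H _ ⟨A.ne.some, A, rfl⟩).1 ⟨A.ne.some_mem, subset_rfl⟩).2))
    (by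
      rintro A B _ ⟨c, C, rfl⟩ ⟨⟨a, ha, b, hb, h1⟩, h2⟩
      refine ⟨_, ⟨a, A, rfl⟩, _, ⟨b, B, rfl⟩, ⟨ha, subset_rfl⟩, ⟨hb, subset_rfl⟩,
        fun D hD E hE => ⟨⟨a, hD.1, b, hE.1, h1⟩, ?_⟩⟩
      rintro x ⟨y, hy, z, hz, hx⟩
      exact h2 ⟨y, hD.2 hy, z, hE.2 hz, hx⟩)
    (fun s => ⟨s, ι s, Set.ext fun B => ⟨fun hB => by rw [hB]; exact ⟨h.refl s, subset_rfl⟩,
      fun hB => DL.ext (Subset.antisymm hB.2 fun c hc => B.low hc hB.1)⟩⟩)
    (by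
      rintro _ ⟨a, A, rfl⟩ B hB
      exact ⟨a, h.refl a, fun c hc => hB.2 (B.low hc hB.1)⟩)
  obtain ⟨s, hs⟩ := surj ⟨{c | ∃ n, le c (f n)}, ⟨f 0, 0, h.refl _⟩,
    fun h1 ⟨n, h2⟩ => ⟨n, h.trans h1 h2⟩, fun a ⟨m, ha⟩ b ⟨n, hb⟩ => ⟨f (m + n), ⟨_, h.refl _⟩,
      h.trans ha (mono _ _ (by omega)), h.trans hb (mono _ _ (by omega))⟩⟩
  obtain ⟨n, hn⟩ : s ∈ {c | ∃ n, le c (f n)} := by
    have := (mem s s).2 (h.refl s)
    rwa [hs] at this
  have : le (f (n + 1)) s := (mem s _).1 (by rw [hs]; exact ⟨n + 1, h.refl _⟩)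
  exact ⟨n, h.anti (hf n) (h.trans this hn)⟩

end Order

open Pointwise in
theorem pure_of_joint {S : Type u} [Semigroup S] (hS : IsCClosed TzS.{u} S)
    (𝒴 : Set (Ultrafilter S)) (hp : ∀ s, pure s ∈ 𝒴)
    (hm : ∀ t₁ ∈ 𝒴, ∀ t₂ ∈ 𝒴, ∃ t₃ ∈ 𝒴, map₂ (· * ·) (t₁ : Filter S) t₂ ≤ t₃) :
    ∀ t ∈ 𝒴, ∃ s, t = pure s := by
  let Y : Subsemigroup (Filter S) :=
    { carrier := {F | ∃ t ∈ 𝒴, F = (t : Filter S)}
      mul_mem' := by
        rintro _ _ ⟨t₁, h1, rfl⟩ ⟨t₂, h2, rfl⟩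
        obtain ⟨t₃, h3, h4⟩ := hm t₁ h1 t₂ h2
        exact ⟨t₃, h3, t₃.unique h4⟩ }
  let ι : S →ₙ* Y :=
    { toFun := fun s => ⟨pure s, pure s, hp s, rfl⟩
      map_mul' := fun a b => Subtype.ext Filter.pure_mul_pure.symm }
  have surj := surj_of_basis hS ι (fun a b hab => pure_injective (congrArg Subtype.val hab))
    {N | ∃ A : Set S, N = {F : Y | A ∈ F.1}}
    (by
      rintro _ ⟨A, rfl⟩ _ ⟨B, rfl⟩ F ⟨h1, h2⟩
      exact ⟨_, ⟨A ∩ B, rfl⟩, inter_mem h1 h2, fun G hG => inter_mem_iff.1 hG⟩)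
    (fun F => ⟨_, ⟨univ, rfl⟩, univ_mem⟩)
    (by
      rintro _ ⟨A, rfl⟩ ⟨_, t, ht, rfl⟩ hF
      refine ⟨_, ⟨Aᶜ, rfl⟩, Ultrafilter.compl_mem_iff_notMem.2 hF, ?_⟩
      rintro ⟨_, t', ht', rfl⟩ h1
      exact Ultrafilter.compl_mem_iff_notMem.1 h1)
    (fun F G H => Subtype.ext (Filter.ext fun A => H _ ⟨A, rfl⟩))
    (by
      rintro F G _ ⟨A, rfl⟩ h1
      obtain ⟨A₁, c1, A₂, c2, c3⟩ := Filter.mem_mul.1 h1
      exact ⟨_, ⟨A₁, rfl⟩, _, ⟨A₂, rfl⟩, c1, c2, fun a ha b hb =>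
        Filter.mem_mul.2 ⟨A₁, ha, A₂, hb, c3⟩⟩)
    (fun s => ⟨{s}, Set.ext fun F => ⟨fun hF => by rw [hF]; exact singleton_mem_pure, fun hF => by
      obtain ⟨_, t, ht, rfl⟩ := F
      exact Subtype.ext ((pure s : Ultrafilter S).unique (le_pure_iff.2 hF))⟩⟩)
    (by
      rintro _ ⟨A, rfl⟩ ⟨_, t, ht, rfl⟩ hF
      obtain ⟨s, hs⟩ := Ultrafilter.nonempty_of_mem hF
      exact ⟨s, hs⟩)
  intro t ht
  obtain ⟨s, hs⟩ := surj ⟨t, t, ht, rfl⟩
  exact ⟨s, Ultrafilter.coe_injective (congrArg Subtype.val hs).symm⟩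

/-- A null extension of a Rees quotient. -/
theorem null_ext {X : Type u} {M : Type u} [Semigroup X] [Monoid M] (hX : IsIdeallyClosed TzS.{u} X)
    (h : X →ₙ* M) {K : Set M} (hK : IsIdeal K) (𝒱 : Ultrafilter M) (hN : range h ∈ 𝒱)
    (H : ∀ c, ∃ U ∈ 𝒱, ∀ x ∈ U, ∀ x' ∈ U, x * c * x' ∈ K) : K ∈ 𝒱 ∨ ∃ b : M, ∀ᶠ x in (𝒱 : Filter M), x = b := by
  have hI : IsIdeal (h ⁻¹' K) := fun x hx a =>
    ⟨by rw [mem_preimage, map_mul]; exact (hK _ hx _).1,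
      by rw [mem_preimage, map_mul]; exact (hK _ hx _).2⟩
  let π : X → (reesCon _ hI).Quotient := fun x => x
  have πm : ∀ a b, π (a * b) = π a * π b := fun _ _ => rfl
  let 𝒯 : Set (Ultrafilter X) := {t | ∃ c d, t.map h = 𝒱.map fun x => c * x * d}
  have key := pure_of_joint (hX _ hI) {t | (∃ s, t = pure s) ∨ ∃ t' ∈ 𝒯, t = t'.map π}
    (fun s => Or.inl ⟨s, rfl⟩) (by
      rintro _ (⟨s, rfl⟩ | ⟨t₁, ⟨c, d, e₁⟩, rfl⟩) _ (⟨s', rfl⟩ | ⟨t₂, ⟨c', d', e₂⟩, rfl⟩)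
      · exact ⟨pure (s * s'), Or.inl ⟨_, rfl⟩, by simp⟩
      · induction s using Con.induction_on with
        | H a =>
          refine ⟨_, Or.inr ⟨t₂.map (a * ·), ⟨h a * c', d', ?_⟩, rfl⟩, ?_⟩
          · have : h ∘ (a * ·) = (h a * ·) ∘ h := funext fun x => map_mul h a x
            rw [Ultrafilter.map_map, this, ← Ultrafilter.map_map, e₂, Ultrafilter.map_map]
            congr 1
            funext x
            simp [mul_assoc]
          · simp only [Ultrafilter.coe_pure, map₂_pure_left, Ultrafilter.coe_map, Filter.map_map]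
            exact le_rfl
      · induction s' using Con.induction_on with
        | H a =>
          refine ⟨_, Or.inr ⟨t₁.map (· * a), ⟨c, d * h a, ?_⟩, rfl⟩, ?_⟩
          · have : h ∘ (· * a) = (· * h a) ∘ h := funext fun x => map_mul h x a
            rw [Ultrafilter.map_map, this, ← Ultrafilter.map_map, e₁, Ultrafilter.map_map]
            congr 1
            funext x
            simp [mul_assoc]
          · simp only [Ultrafilter.coe_pure, map₂_pure_right, Ultrafilter.coe_map, Filter.map_map]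
            exact le_rfl
      · obtain ⟨U, hU, hU'⟩ := H (d * c')
        have a1 : h ⁻¹' ((fun x => c * x * d) '' U) ∈ t₁ := by
          rw [← Ultrafilter.mem_map, e₁]; exact image_mem_map hU
        have a2 : h ⁻¹' ((fun x => c' * x * d') '' U) ∈ t₂ := by
          rw [← Ultrafilter.mem_map, e₂]; exact image_mem_map hU
        have a3 : ∀ x ∈ h ⁻¹' ((fun x => c * x * d) '' U), ∀ y ∈ h ⁻¹' ((fun x => c' * x * d') '' U),
            x * y ∈ h ⁻¹' K := by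
          rintro x ⟨u, hu, e⟩ y ⟨v, hv, e'⟩
          rw [mem_preimage, map_mul, ← e, ← e']
          have := (hK _ (hK _ (hU' u hu v hv) c).2 d').1
          simpa only [mul_assoc] using this
        obtain ⟨x₀, hx₀⟩ := Ultrafilter.nonempty_of_mem a1
        obtain ⟨y₀, hy₀⟩ := Ultrafilter.nonempty_of_mem a2
        refine ⟨pure (π (x₀ * y₀)), Or.inl ⟨_, rfl⟩, le_pure_iff.2 (mem_map₂_iff.2
          ⟨_, image_mem_map a1, _, image_mem_map a2, ?_⟩)⟩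
        rintro _ ⟨_, ⟨x, hx, rfl⟩, _, ⟨y, hy, rfl⟩, rfl⟩
        exact (Con.eq _).2 (Or.inl ⟨a3 x hx y hy, a3 _ hx₀ _ hy₀⟩))
  obtain ⟨_, x₁, -⟩ := Ultrafilter.nonempty_of_mem hN
  have : Nonempty X := ⟨x₁⟩
  have e : ∀ᶠ z in (𝒱 : Filter M), h (Function.invFun h z) = z :=
    mem_of_superset hN fun z hz => Function.invFun_eq hz
  obtain ⟨s, hs⟩ := key _ (Or.inr ⟨𝒱.map (Function.invFun h), ⟨1, 1, by
    rw [Ultrafilter.map_map]
    exact Ultrafilter.coe_injective (Filter.map_congr (e.mono fun z hz => by simpa using hz))⟩, rfl⟩)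
  induction s using Con.induction_on with
  | H a =>
    have e2 : ∀ᶠ z in (𝒱 : Filter M), π (Function.invFun h z) = π a := by
      have : {π a} ∈ (𝒱.map (Function.invFun h)).map π := by rw [hs]; exact singleton_mem_pure
      exact this
    by_cases ha : h a ∈ K
    · left
      filter_upwards [e, e2] with z h1 h2
      rcases (Con.eq _).1 h2 with h3 | h3
      · exact h1 ▸ h3.1
      · rw [← h1, h3]; exact ha
    · right
      refine ⟨h a, ?_⟩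
      filter_upwards [e, e2] with z h1 h2
      rcases (Con.eq _).1 h2 with h3 | h3
      · exact absurd h3.2 ha
      · rw [← h1, h3]

end Pool.Agent.Lib.MP_4caafd_al.Inv
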