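import Mathlib
import Pool.Agent.Lib.MP_4caafd_al.Inv.Top

/-!
Algebra of inverse semigroups with chain conditions on idempotents.
-/

namespace Pool.Agent.Lib.MP_4caafd_al.Inv

open Pool.Agent.Lib.MP_4caafd_al Set

universe u

section Semi

variable {X : Type u} [Semigroup X]

/-- `i` chooses inverses, and idempotents commute. -/
structure IS (i : X → X) : Prop where
  h1 : ∀ x, x * i x * x = x
  h2 : ∀ x, i x * x * i x = i x
  comm : ∀ e f : X, e * e = e → f * f = f → e * f = f * e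

lemma exists_IS (H : ∀ x : X, ∃! y, x * y * x = x ∧ y * x * y = y) : ∃ i : X → X, IS i := by
  choose i hi hu using H
  have idem : ∀ e f : X, e * e = e → f * f = f → e * f * (e * f) = e * f := by
    intro e f he hf
    have e1 : ∀ y, e * (e * y) = e * y := fun y => by rw [← mul_assoc, he]
    have f1 : ∀ y, f * (f * y) = f * y := fun y => by rw [← mul_assoc, hf]
    obtain ⟨a1, a2⟩ := hi (e * f)
    set x := i (e * f) with hx
    have a3 : ∀ y, x * (e * (f * (x * y))) = x * y := fun y => by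
      conv_rhs => rw [← a2]
      simp only [mul_assoc]
    have a4 : f * x * e = x := hu (e * f) _ ⟨by simpa only [mul_assoc, e1, f1] using a1,
      by simp only [mul_assoc, e1, f1, a3]⟩
    have a5 : x * x = x := by
      calc x * x = f * x * e * (f * x * e) := by rw [a4]
        _ = f * x * e := by simp only [mul_assoc, a3]
        _ = x := a4
    have a6 : e * f = x := (hu x _ ⟨a2, a1⟩).trans (hu x x ⟨by rw [a5, a5], by rw [a5, a5]⟩).symm
    rw [a6, a5]
  refine ⟨i, fun x => (hi x).1, fun x => (hi x).2, fun e f he hf => ?_⟩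
  have e1 : ∀ y, e * (e * y) = e * y := fun y => by rw [← mul_assoc, he]
  have f1 : ∀ y, f * (f * y) = f * y := fun y => by rw [← mul_assoc, hf]
  have a := idem e f he hf
  have b := idem f e hf he
  exact (hu (e * f) _ ⟨by rw [a, a], by rw [a, a]⟩).trans (hu (e * f) _
    ⟨by simpa only [mul_assoc, e1, f1] using a, by simpa only [mul_assoc, e1, f1] using b⟩).symm

variable {i : X → X}

lemma IS.a1 (h : IS i) (x y : X) : x * (i x * (x * y)) = x * y := by
  conv_rhs => rw [← h.h1 x]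
  simp only [mul_assoc]

lemma IS.a2 (h : IS i) (x y : X) : i x * (x * (i x * y)) = i x * y := by
  conv_rhs => rw [← h.h2 x]
  simp only [mul_assoc]

lemma IS.b1 (h : IS i) (x : X) : x * (i x * x) = x := by rw [← mul_assoc, h.h1]
lemma IS.b2 (h : IS i) (x : X) : i x * (x * i x) = i x := by rw [← mul_assoc, h.h2]

lemma IS.ri (h : IS i) (x : X) : x * i x * (x * i x) = x * i x := by simp only [mul_assoc, h.a1]
lemma IS.di (h : IS i) (x : X) : i x * x * (i x * x) = i x * x := by simp only [mul_assoc, h.a2]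

lemma IS.uniq (h : IS i) {x y : X} (h1 : x * y * x = x) (h2 : y * x * y = y) : i x = y := by
  have a1 : y * x * (y * x) = y * x := by rw [← mul_assoc, h2]
  have a2 : x * y * (x * y) = x * y := by rw [← mul_assoc, h1]
  have b1 : y * x = i x * x := by
    calc y * x = y * x * (i x * x) := by rw [mul_assoc, h.b1]
      _ = i x * x * (y * x) := h.comm _ _ a1 (h.di x)
      _ = i x * (x * y * x) := by simp only [mul_assoc]
      _ = i x * x := by rw [h1]
  have b2 : x * y = x * i x := by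
    calc x * y = x * i x * (x * y) := by rw [← mul_assoc, h.h1]
      _ = x * y * (x * i x) := h.comm _ _ (h.ri x) a2
      _ = x * i x := by rw [← mul_assoc, h1]
  rw [← h2, b1, mul_assoc, b2, h.b2]

lemma IS.ii (h : IS i) (x : X) : i (i x) = x := h.uniq (h.h2 x) (h.h1 x)

lemma IS.ie (h : IS i) {e : X} (he : e * e = e) : i e = e :=
  h.uniq (by rw [he, he]) (by rw [he, he])

lemma IS.lc (h : IS i) {e f : X} (he : e * e = e) (hf : f * f = f) (y : X) :
    e * (f * y) = f * (e * y) := by rw [← mul_assoc, h.comm e f he hf, mul_assoc]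

lemma IS.im (h : IS i) (x y : X) : i (x * y) = i y * i x := by
  have := h.lc (h.ri y) (h.di x)
  simp only [mul_assoc] at this
  refine h.uniq ?_ ?_
  · simp only [mul_assoc, this, h.a1, h.b1]
  · simp only [mul_assoc, ← this, h.a2, h.b2]

lemma IS.mi (h : IS i) {e f : X} (he : e * e = e) (hf : f * f = f) : e * f * (e * f) = e * f := by
  rw [mul_assoc, h.lc hf he, hf, ← mul_assoc, he]

lemma IS.conj (h : IS i) {e : X} (he : e * e = e) (x : X) :
    x * e * i x * (x * e * i x) = x * e * i x := by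
  simpa only [h.im, h.ie he, mul_assoc, ← mul_assoc e e, he] using h.ri (x * e)

lemma IS.compat (h : IS i) : Compat fun a b : X => ∃ e, e * e = e ∧ a = e * b where
  refl a := ⟨_, h.ri a, (h.h1 a).symm⟩
  trans := by
    rintro _ _ c ⟨e, he, rfl⟩ ⟨f, hf, rfl⟩
    exact ⟨e * f, h.mi he hf, (mul_assoc _ _ _).symm⟩
  anti := by
    rintro a b ⟨e, he, h1⟩ ⟨f, hf, h2⟩
    have h3 : e * a = a := by rw [h1, ← mul_assoc, he]
    rw [h2, ← h3, h.lc hf he, ← h2, ← h1, h3]
  mul := by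
    rintro _ b _ d ⟨e, he, rfl⟩ ⟨f, hf, rfl⟩
    refine ⟨e * (b * f * i b), h.mi he (h.conj hf b), ?_⟩
    have := h.lc hf (h.di b) d
    simp only [mul_assoc] at this ⊢
    rw [this, h.a1]

/-- Every nonempty set of idempotents has a minimal and a maximal element. -/
structure Chain (X : Type u) [Semigroup X] : Prop where
  min : ∀ s : Set X, (∀ e ∈ s, e * e = e) → s.Nonempty → ∃ e ∈ s, ∀ f ∈ s, f * e = f → f = e
  max : ∀ s : Set X, (∀ e ∈ s, e * e = e) → s.Nonempty → ∃ e ∈ s, ∀ f ∈ s, e * f = e → f = e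

lemma Compat.has_max {le : X → X → Prop} (h : Compat le) (hX : IsCClosed TzS.{u} X) (s : Set X)
    (hs : s.Nonempty) : ∃ a ∈ s, ∀ b ∈ s, le a b → b = a := by
  have : WellFounded fun b a => le a b ∧ b ≠ a := by
    rw [wellFounded_iff_isEmpty_descending_chain]
    refine ⟨fun ⟨f, hf⟩ => ?_⟩
    obtain ⟨n, hn⟩ := h.no_chain hX f fun n => (hf n).1
    exact (hf n).2 hn.symm
  obtain ⟨a, ha, h'⟩ := this.has_min s hs
  exact ⟨a, ha, fun b hb hab => by_contra fun e => h' b hb ⟨hab, e⟩⟩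

lemma IS.chain (h : IS i) (hX : IsCClosed TzS.{u} X) : Chain X := by
  have c := h.compat
  have c' : Compat fun b a : X => ∃ e, e * e = e ∧ a = e * b :=
    ⟨c.refl, fun a b => c.trans b a, fun a b => c.anti b a, fun a b => c.mul a b⟩
  constructor
  · intro s hs hne
    obtain ⟨e, he, H⟩ := c'.has_max hX s hne
    exact ⟨e, he, fun f hf e' => H f hf ⟨f, hs f hf, e'.symm⟩⟩
  · intro s hs hne
    obtain ⟨e, he, H⟩ := c.has_max hX s hne
    exact ⟨e, he, fun f hf e' => H f hf ⟨e, hs e he, e'.symm⟩⟩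

variable {M : Type u} [Monoid M]

lemma IS.lift (h : IS i) (φ : X →ₙ* M) {z : M} (hz : z * z = z) (hr : z ∈ range φ) :
    ∃ e, e * e = e ∧ φ e = z := by
  obtain ⟨x, rfl⟩ := hr
  refine ⟨x * i (x * x) * x, ?_, ?_⟩
  · have := h.a2 (x * x) x
    simp only [mul_assoc] at this ⊢
    rw [this]
  · have := congrArg φ (h.h1 (x * x))
    simpa only [map_mul, hz] using this

lemma IS.image (h : IS i) (φ : X →ₙ* M) (hφ : ∀ z, z = 1 ∨ z ∈ range φ) : ∃ j : M → M, IS j := by
  have : ∀ z : M, ∃ w, z * w * z = z ∧ w * z * w = w := fun z => by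
    rcases hφ z with rfl | ⟨x, rfl⟩
    · exact ⟨1, by simp, by simp⟩
    · exact ⟨φ (i x), by rw [← map_mul, ← map_mul, h.h1], by rw [← map_mul, ← map_mul, h.h2]⟩
  choose j h1 h2 using this
  refine ⟨j, h1, h2, fun e f he hf => ?_⟩
  rcases hφ e with rfl | he'
  · simp
  rcases hφ f with rfl | hf'
  · simp
  obtain ⟨a, ha, rfl⟩ := h.lift φ he he'
  obtain ⟨b, hb, rfl⟩ := h.lift φ hf hf'
  rw [← map_mul, h.comm a b ha hb, map_mul]

lemma IS.chain_image (h : IS i) (c : Chain X) (φ : X →ₙ* M) (hφ : ∀ z, z = 1 ∨ z ∈ range φ) :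
    Chain M := by
  constructor
  · intro s hs hne
    by_cases h1 : ∃ z ∈ s, z ∈ range φ
    · obtain ⟨z, hz, hr⟩ := h1
      obtain ⟨a, ha, rfl⟩ := h.lift φ (hs z hz) hr
      obtain ⟨e, he, H⟩ := c.min {e | e * e = e ∧ φ e ∈ s} (fun _ h => h.1) ⟨a, ha, hz⟩
      refine ⟨φ e, he.2, fun f hf e1 => ?_⟩
      rcases hφ f with rfl | hf'
      · simpa using e1.symm
      obtain ⟨b, hb, rfl⟩ := h.lift φ (hs f hf) hf'
      rw [← H (b * e) ⟨h.mi hb he.1, by rwa [map_mul, e1]⟩ (by rw [mul_assoc, he.1]), map_mul, e1]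
    · push Not at h1
      obtain ⟨z, hz⟩ := hne
      exact ⟨z, hz, fun f hf _ => ((hφ f).resolve_right (h1 f hf)).trans
        ((hφ z).resolve_right (h1 z hz)).symm⟩
  · intro s hs hne
    by_cases h1 : (1 : M) ∈ s
    · exact ⟨1, h1, fun f _ e => by simpa using e⟩
    have fib : ∀ z ∈ s, ∃ e, (e * e = e ∧ φ e ∈ s ∧ ∀ b, b * b = b → φ b = φ e → e * b = e) ∧
        φ e = z := fun z hz => by
      obtain ⟨a, ha⟩ := h.lift φ (hs z hz) ((hφ z).resolve_left fun e => h1 (e ▸ hz))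
      obtain ⟨e, he, H⟩ := c.min {e | e * e = e ∧ φ e = z} (fun _ h => h.1) ⟨a, ha⟩
      refine ⟨e, ⟨he.1, he.2 ▸ hz, fun b hb e1 => ?_⟩, he.2⟩
      rw [h.comm e b he.1 hb]
      exact H _ ⟨h.mi hb he.1, by rw [map_mul, e1, he.2, hs z hz]⟩ (by rw [mul_assoc, he.1])
    obtain ⟨z, hz⟩ := hne
    obtain ⟨a, ha, -⟩ := fib z hz
    obtain ⟨e, he, H⟩ := c.max {e | e * e = e ∧ φ e ∈ s ∧ ∀ b, b * b = b → φ b = φ e → e * b = e}
      (fun _ h => h.1) ⟨a, ha⟩
    refine ⟨φ e, he.2.1, fun f hf e1 => ?_⟩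
    obtain ⟨b, hb, rfl⟩ := fib f hf
    have := he.2.2 (e * b) (h.mi he.1 hb.1) (by rw [map_mul, e1])
    rw [← mul_assoc, he.1] at this
    rw [H b hb this]

end Semi

section Mon

variable {M : Type u} [Monoid M] {i : M → M}

/-- The two-sided divisibility preorder. -/
def Jle (x y : M) : Prop := ∃ s t, x = s * y * t

lemma Jle.rfl {x : M} : Jle x x := ⟨1, 1, by simp⟩

lemma Jle.trans {x y z : M} (h1 : Jle x y) (h2 : Jle y z) : Jle x z := by
  obtain ⟨s, t, rfl⟩ := h1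
  obtain ⟨s', t', rfl⟩ := h2
  exact ⟨s * s', t' * t, by simp only [mul_assoc]⟩

lemma jl (x y : M) : Jle (x * y) x := ⟨1, y, by simp⟩
lemma jr (x y : M) : Jle (x * y) y := ⟨x, 1, by simp⟩
lemma IS.j1 (h : IS i) (x : M) : Jle x (x * i x) := ⟨1, x, by rw [one_mul, h.h1]⟩
lemma IS.j2 (h : IS i) (x : M) : Jle x (i x * x) := ⟨x, 1, by rw [mul_one, h.b1]⟩

lemma IS.below (h : IS i) {x y : M} (H : Jle x y) :
    ∃ u, u * i u * (y * i y) = u * i u ∧ i u * u = i x * x := by
  obtain ⟨s, t, rfl⟩ := H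
  refine ⟨i s * (s * y * t), ?_, ?_⟩
  · have := h.lc (h.di s) (h.ri y)
    have h3 := h.comm _ _ (h.di s) (h.ri y)
    simp only [mul_assoc] at this h3
    simp only [h.im, h.ii, mul_assoc, h3, h.a2]
  · simp only [h.im, h.ii, mul_assoc, h.a1]

lemma IS.base (h : IS i) (c : Chain M) (z : M) : ∃ e, e * e = e ∧ Jle e z ∧ Jle z e ∧
    (∀ f, f * f = f → Jle z f → f * e = f → f = e) ∧
    ∀ g, g * g = g → Jle g z → Jle z g → ∃ u, u * i u = e ∧ i u * u = g := by
  obtain ⟨e, he, H⟩ := c.min {e | e * e = e ∧ Jle e z ∧ Jle z e} (fun _ h => h.1)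
    ⟨z * i z, h.ri z, jl _ _, h.j1 z⟩
  have H' : ∀ f, f * f = f → Jle z f → f * e = f → f = e := fun f h1 h2 h3 =>
    H f ⟨h1, (h3 ▸ jr f e).trans he.2.1, h2⟩ h3
  refine ⟨e, he.1, he.2.1, he.2.2, H', fun g hg h1 h2 => ?_⟩
  obtain ⟨u, u1, u2⟩ := h.below (h1.trans he.2.2)
  rw [h.ie he.1, he.1] at u1
  rw [h.ie hg, hg] at u2
  exact ⟨u, H' _ (h.ri u) (h2.trans (u2 ▸ (jr _ _).trans (h.j1 u))) u1, u2⟩

/-- Stability: comparable idempotents of one class are equal. -/
lemma IS.stable (h : IS i) (c : Chain M) {g f : M} (hg : g * g = g) (hf : f * f = f)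
    (H : Jle g (g * f)) : g * f = g := by
  obtain ⟨e, -, -, -, h1, h2⟩ := h.base c g
  obtain ⟨u, u1, u2⟩ := h2 g hg Jle.rfl Jle.rfl
  have a1 : i u * (u * (g * f) * i u) * u = g * f := by
    have : i u * (u * (g * f) * i u) * u = (i u * u) * (g * f) * (i u * u) := by
      simp only [mul_assoc]
    rw [this, u2, ← mul_assoc, hg, mul_assoc, h.comm f g hf hg, ← mul_assoc, hg]
  have a2 := h1 _ (h.conj (h.mi hg hf) u) (H.trans ⟨_, _, a1.symm⟩)
    (by rw [← u1]; simp only [mul_assoc, h.b2])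
  rw [← a1, a2, ← u1, ← u2]
  simp only [mul_assoc, h.a2]

lemma IS.jmin (h : IS i) (c : Chain M) {S : Set M} (hS : S.Nonempty) :
    ∃ x₀ ∈ S, ∀ x ∈ S, Jle x x₀ → Jle x₀ x := by
  obtain ⟨z, hz⟩ := hS
  obtain ⟨e, ⟨he, x₀, hx₀, e1, e2⟩, H⟩ := c.min {e | e * e = e ∧ ∃ x ∈ S, Jle e x ∧ Jle x e}
    (fun _ h => h.1) ⟨z * i z, h.ri z, z, hz, jl _ _, h.j1 z⟩
  refine ⟨x₀, hx₀, fun x hx h1 => ?_⟩
  obtain ⟨u, u1, u2⟩ := h.below (h1.trans e2)
  rw [h.ie he, he] at u1
  have a1 : Jle (u * i u) x := (jl _ _).trans ((h.j2 u).trans (u2 ▸ jr _ _))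
  have a2 : Jle x (u * i u) := (h.j2 x).trans (u2 ▸ (jr _ _).trans (h.j1 u))
  exact e2.trans (H _ ⟨h.ri u, x, hx, a1, a2⟩ u1 ▸ a1)

/-- A product that stays in the class of its left factor can be cancelled. -/
lemma IS.cancel_right (h : IS i) (c : Chain M) {x w : M} (H : Jle x (x * w)) :
    x * w * i w = x := by
  have a1 : i x * x * (w * i w) = i x * x := h.stable c (h.di x) (h.ri w)
    ((jr _ _).trans (H.trans ⟨x, w, by simp only [mul_assoc, h.a1, h.b1]⟩))
  rw [← h.b1 x, ← a1]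
  simp only [mul_assoc, h.a1, h.b1]

lemma IS.cancel_left (h : IS i) (c : Chain M) {x w : M} (H : Jle x (w * x)) :
    i w * (w * x) = x := by
  have a1 : x * i x * (i w * w) = x * i x := h.stable c (h.ri x) (h.di w)
    ((jl _ _).trans (H.trans ⟨w, x, by
      rw [h.comm _ _ (h.ri x) (h.di w)]; simp only [mul_assoc, h.a1, h.b1]⟩))
  rw [h.comm _ _ (h.ri x) (h.di w)] at a1
  rw [← h.h1 x, ← a1]
  simp only [mul_assoc, h.a1, h.b1]

end Mon

end Pool.Agent.Lib.MP_4caafd_al.Inv
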