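import Mathlib
import Pool.Agent.Lib.MP_4caafd_al.Inv.Top

/-!
Pulling a remainder back to a Rees quotient.
-/

namespace Pool.Agent.Lib.MP_4caafd_al.Inv

open Pool.Agent.Lib.MP_4caafd_al Topology Filter Set TopologicalSpace

universe u

variable {C : SGClass.{u}}

lemma cm_of (hC : C = T1S ∨ C = T2S ∨ C = TzS) {Y : Type u} [Semigroup Y] [TopologicalSpace Y]
    (hY : C Y) : ContinuousMul Y := by
  rcases hC with rfl | rfl | rfl <;> exact hY.1

lemma t1_of (hC : C = T1S ∨ C = T2S ∨ C = TzS) {Y : Type u} [Semigroup Y] [TopologicalSpace Y]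
    (hY : C Y) : T1Space Y := by
  rcases hC with rfl | rfl | rfl
  · exact hY.2
  · have := hY.2; infer_instance
  · have := hY.2.1; infer_instance

lemma tz_of (hC : C = T1S ∨ C = T2S ∨ C = TzS) {X : Type u} [Semigroup X]
    (hX : IsIdeallyClosed C X) : IsIdeallyClosed TzS.{u} X := by
  intro I hI Y _ _ hY
  refine hX I hI Y ?_
  rcases hC with rfl | rfl | rfl
  · have := hY.2.1
    exact ⟨hY.1, inferInstance⟩
  · exact ⟨hY.1, hY.2.1⟩
  · exact hY

lemma prod_of (hC : C = T1S ∨ C = T2S ∨ C = TzS) {Y D : Type u} [Semigroup Y] [TopologicalSpace Y]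
    [Semigroup D] [TopologicalSpace D] [DiscreteTopology D] (hY : C Y) : C (Y × D) := by
  have := cm_of hC hY
  have : ContinuousMul D := ⟨continuous_of_discreteTopology⟩
  rcases hC with rfl | rfl | rfl
  · have := hY.2
    exact ⟨inferInstance, inferInstance⟩
  · have := hY.2
    exact ⟨inferInstance, inferInstance⟩
  · have := hY.2.1
    refine ⟨inferInstance, inferInstance,
      isTopologicalBasis_of_isOpen_of_nhds (fun s hs => hs.2) fun u T hu hT => ?_⟩
    have h1 : (fun y => (y, u.2)) ⁻¹' T ∈ 𝓝 u.1 :=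
      (Continuous.prodMk_left u.2).continuousAt.preimage_mem_nhds (hT.mem_nhds hu)
    obtain ⟨B, hB, h2, h3⟩ := hY.2.2.mem_nhds_iff.1 h1
    refine ⟨B ×ˢ {u.2}, IsClopen.prod hB (isClopen_discrete _), ⟨h2, rfl⟩, ?_⟩
    rintro ⟨y, d⟩ ⟨h4, rfl⟩
    exact h3 h4

theorem no_new (hC : C = T1S ∨ C = T2S ∨ C = TzS) {S Z Y : Type u} [Semigroup S] [Semigroup Z]
    [Semigroup Y] [TopologicalSpace Y] (hY : C Y) (hS : IsCClosed C S) (ι : S →ₙ* Z)
    (hι : Function.Injective ι) (p : Z → Y) {K : Set Y} (hK : IsClopen K) (New : Z → Prop)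
    (hnew : ∀ z, ¬New z ↔ z ∈ range ι) (n1 : ∀ z, New z → p z ∉ K)
    (n2 : ∀ z z', New z → p z' = p z → z' = z)
    (pm : ∀ a b, p a * p b ∉ K → p (a * b) = p a * p b)
    (pz : ∀ a b, p a * p b ∈ K → p (a * b) ∈ K) (uq : ∀ z z', p z ∈ K → p z' ∈ K → z = z')
    (n3 : ∀ a b, New a ∨ New b → New (a * b) ∨ p a * p b ∈ K)
    (dens : ∀ z, New z → p z ∈ closure (p '' range ι)) (z : Z) : ¬New z := by
  have := cm_of hC hY
  have := t1_of hC hY
  let _ : TopologicalSpace Z :=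
    { IsOpen := fun U => ∀ z ∈ U, New z → U ∈ comap p (𝓝 (p z))
      isOpen_univ := fun _ _ _ => univ_mem
      isOpen_inter := fun s t hs ht z hz h => inter_mem (hs z hz.1 h) (ht z hz.2 h)
      isOpen_sUnion := fun s hs z ⟨t, ht, hz⟩ h =>
        mem_of_superset (hs t ht z hz h) (subset_sUnion_of_mem ht) }
  have op : ∀ U : Set Z, IsOpen U ↔ ∀ z ∈ U, New z → U ∈ comap p (𝓝 (p z)) := fun _ => Iff.rfl
  have pc : Continuous p := ⟨fun V hV => (op _).2 fun z hz _ => preimage_mem_comap (hV.mem_nhds hz)⟩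
  have old : ∀ z, ¬New z → IsOpen {z} := fun z hz => (op _).2 fun z' h h' => absurd (h ▸ h') hz
  have nn : ∀ z, New z → 𝓝 z = comap p (𝓝 (p z)) := fun z hz =>
    le_antisymm (pc.tendsto z).le_comap fun U hU => by
      obtain ⟨V, h1, h2, h3⟩ := mem_nhds_iff.1 hU
      exact mem_of_superset ((op V).1 h2 z h3 hz) h1
  have t1 : T1Space Z := ⟨fun z₀ => ⟨(op _).2 fun z hz h =>
    mem_comap.2 ⟨{p z₀}ᶜ, isOpen_compl_singleton.mem_nhds fun e => hz (n2 z z₀ h e.symm).symm,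
      fun w hw e => hw (congrArg p e)⟩⟩⟩
  have cm : ContinuousMul Z := ⟨continuous_iff_continuousAt.2 fun ⟨a, b⟩ => by
    have hp : Continuous fun q : Z × Z => p q.1 * p q.2 :=
      (pc.comp continuous_fst).mul (pc.comp continuous_snd)
    by_cases h : New (a * b)
    · have h1 : p a * p b ∉ K := fun h' => n1 _ h (pz a b h')
      show Tendsto _ _ (𝓝 (a * b))
      rw [nn _ h, tendsto_comap_iff, pm a b h1]
      refine (hp.tendsto (a, b)).congr' ?_
      filter_upwards [(hp.tendsto (a, b)).eventually (hK.compl.2.mem_nhds h1)] with q hq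
      exact (pm _ _ hq).symm
    · by_cases h' : New a ∨ New b
      · have h1 := (n3 a b h').resolve_left h
        refine (tendsto_const_nhds (x := a * b)).congr' ?_
        filter_upwards [(hp.tendsto (a, b)).eventually (hK.2.mem_nhds h1)] with q hq
        exact uq _ _ (pz _ _ h1) (pz _ _ hq)
      · push Not at h'
        refine (tendsto_const_nhds (x := a * b)).congr' ?_
        filter_upwards [((old a h'.1).prod (old b h'.2)).mem_nhds (mk_mem_prod rfl rfl)]
        rintro ⟨c, d⟩ ⟨rfl, rfl⟩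
        rfl⟩
  have t2 : T2Space Y → T2Space Z := fun _ => ⟨fun a b hab => by
    by_cases ha : New a
    · by_cases hb : New b
      · exact separated_by_continuous pc fun e => hab (n2 b a hb e)
      · exact ⟨{b}ᶜ, {b}, isOpen_compl_singleton, old b hb, hab, rfl, disjoint_compl_left⟩
    · exact ⟨{a}, {a}ᶜ, old a ha, isOpen_compl_singleton, rfl, hab.symm, disjoint_compl_right⟩⟩
  have hZ : C Z := by
    rcases hC with rfl | rfl | rfl
    · exact ⟨cm, t1⟩
    · exact ⟨cm, t2 hY.2⟩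
    · refine ⟨cm, t2 hY.2.1,
        isTopologicalBasis_of_isOpen_of_nhds (fun s hs => hs.2) fun u T hu hT => ?_⟩
      by_cases h : New u
      · obtain ⟨V, hV, hVs⟩ := mem_comap.1 ((op T).1 hT u hu h)
        obtain ⟨B, hB, h1, h2⟩ := hY.2.2.mem_nhds_iff.1 hV
        exact ⟨p ⁻¹' B, hB.preimage pc, h1, (preimage_mono h2).trans hVs⟩
      · exact ⟨{u}, ⟨isClosed_singleton, old u h⟩, rfl, singleton_subset_iff.2 hu⟩
  have he : @IsEmbedding S Z ⊥ _ ι := by
    let _ : TopologicalSpace S := ⊥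
    have : DiscreteTopology S := ⟨rfl⟩
    refine (IsOpenEmbedding.of_continuous_injective_isOpenMap continuous_of_discreteTopology
      hι fun s _ => ?_).isEmbedding
    rw [← biUnion_of_singleton s, image_iUnion₂]
    refine isOpen_biUnion fun x _ => ?_
    rw [image_singleton]
    exact old _ ((hnew _).2 ⟨x, rfl⟩)
  intro hz
  have h1 := (op _).1 (hS Z hZ ι he).isOpen_compl z (fun h => (hnew z).2 h hz) hz
  obtain ⟨V, hV, hVs⟩ := mem_comap.1 h1
  obtain ⟨_, h2, w, hw, rfl⟩ := mem_closure_iff_nhds.1 (dens z hz) V hV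
  exact hVs h2 hw

theorem pull (hC : C = T1S ∨ C = T2S ∨ C = TzS) {X Y : Type u} [Semigroup X] [Semigroup Y]
    [TopologicalSpace Y] (hY : C Y) (hX : IsIdeallyClosed C X) (f : X →ₙ* Y) {K W : Set Y}
    (hK : IsClopen K) (hKi : IsIdeal K) (hW : W ⊆ closure (range f))
    (mW : ∀ a ∈ W, ∀ b ∈ closure (range f), a * b ∈ W ∧ b * a ∈ W)
    (hP : ∀ a ∈ W, ∀ b ∈ closure (range f),
      (a * b ∈ range f → a * b ∉ K → a ∈ range f) ∧ (b * a ∈ range f → b * a ∉ K → a ∈ range f)) :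
    ∀ u ∈ W, u ∈ range f ∨ u ∈ K := by
  have aux : ∀ a ∈ W, a ∉ range f ∨ a ∈ K → ∀ b ∈ closure (range f),
      (a * b ∈ W ∧ (a * b ∉ range f ∨ a * b ∈ K)) ∧ (b * a ∈ W ∧ (b * a ∉ range f ∨ b * a ∈ K)) := by
    intro a ha h b hb
    have h1 := hP a ha b hb
    have h2 := fun h' => hKi a h' b
    refine ⟨⟨(mW a ha b hb).1, ?_⟩, (mW a ha b hb).2, ?_⟩ <;> tauto
  let Q : Subsemigroup (Y × WithZero X) :=
    { carrier := {q | (∃ x : X, q = (f x, (x : WithZero X))) ∨
        (q.2 = 0 ∧ q.1 ∈ W ∧ (q.1 ∉ range f ∨ q.1 ∈ K))}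
      mul_mem' := by
        rintro a b (⟨x, rfl⟩ | ⟨a1, a2, a3⟩) (⟨y, rfl⟩ | ⟨b1, b2, b3⟩)
        · exact Or.inl ⟨x * y, by simp⟩
        · exact Or.inr ⟨by simp [b1], (aux _ b2 b3 _ (subset_closure ⟨x, rfl⟩)).2⟩
        · exact Or.inr ⟨by simp [a1], (aux _ a2 a3 _ (subset_closure ⟨y, rfl⟩)).1⟩
        · exact Or.inr ⟨by simp [a1], (aux _ a2 a3 _ (hW b2)).1⟩ }
  have hI : IsIdeal (f ⁻¹' K) := fun x hx a =>
    ⟨by rw [mem_preimage, map_mul]; exact (hKi _ hx _).1,
      by rw [mem_preimage, map_mul]; exact (hKi _ hx _).2⟩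
  have hJ : IsIdeal {q : Q | q.1.1 ∈ K} := fun q hq a => hKi _ hq _
  let Z := (reesCon _ hJ).Quotient
  let mk : Q → Z := fun q => q
  have mkeq : ∀ q q', mk q = mk q' ↔ (q.1.1 ∈ K ∧ q'.1.1 ∈ K) ∨ q = q' := fun _ _ => Con.eq _
  have mkm : ∀ q q', mk (q * q') = mk q * mk q' := fun _ _ => rfl
  obtain ⟨o, ho⟩ : ∃ o : Z → Q, ∀ z, mk (o z) = z := ⟨Quotient.out, Quotient.out_eq⟩
  have pk : ∀ q, q.1.1 ∉ K → o (mk q) = q := fun q hq =>
    ((mkeq _ _).1 (ho (mk q))).resolve_left fun h => hq h.2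
  have pk' : ∀ q, q.1.1 ∈ K → (o (mk q)).1.1 ∈ K := fun q hq => by
    rcases (mkeq _ _).1 (ho (mk q)) with h | h
    · exact h.1
    · rwa [h]
  have om : ∀ a b, a * b = mk (o a * o b) := fun a b => by rw [mkm, ho, ho]
  let j : X → Q := fun x => ⟨(f x, x), Or.inl ⟨x, rfl⟩⟩
  let ι : (reesCon _ hI).Quotient →ₙ* Z :=
    { toFun := fun s => Con.liftOn s (fun x => mk (j x)) fun x y h =>
        (mkeq _ _).2 (h.imp id (congrArg j))
      map_mul' := fun a b => Con.induction_on₂ a b fun x y => by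
        show mk (j (x * y)) = mk (j x * j y)
        congr 1
        exact Subtype.ext (by simp [j]) }
  have ιx : ∀ x : X, ι (x : (reesCon _ hI).Quotient) = mk (j x) := fun _ => rfl
  have nw : ∀ q : Q, q.1.1 ∉ range f → q.1.2 = 0 ∧ q.1.1 ∈ W := fun q hq => by
    rcases q.2 with ⟨x, h⟩ | h
    · exact absurd ⟨x, by rw [h]⟩ hq
    · exact ⟨h.1, h.2.1⟩
  have cq : ∀ q : Q, q.1.1 ∈ closure (range f) := fun q => by
    rcases q.2 with ⟨x, h⟩ | h
    · exact subset_closure ⟨x, by rw [h]⟩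
    · exact hW h.2.1
  have key := no_new hC hY (hX _ hI) ι
    (fun a b => Con.induction_on₂ a b fun x y h => (Con.eq _).2
      (((mkeq _ _).1 h).imp id fun e => WithZero.coe_injective (congrArg (fun q : Q => q.1.2) e)))
    (fun z => (o z).1.1) hK (fun z => (o z).1.1 ∉ range f ∧ (o z).1.1 ∉ K)
    (fun z => by
      constructor
      · intro h
        by_cases hz : (o z).1.1 ∈ K
        · obtain ⟨_, h1, x, rfl⟩ := mem_closure_iff_nhds.1 (cq (o z)) K (hK.2.mem_nhds hz)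
          exact ⟨x, by rw [ιx, ← ho z]; exact (mkeq _ _).2 (Or.inl ⟨h1, hz⟩)⟩
        · rcases (o z).2 with ⟨x, e⟩ | e
          · exact ⟨x, by rw [ιx, ← ho z]; congr 1; exact Subtype.ext e.symm⟩
          · exact absurd ⟨e.2.2.resolve_right hz, hz⟩ h
      · rintro ⟨s, rfl⟩
        induction s using Con.induction_on with
        | H x =>
          rw [ιx]
          intro h
          by_cases hx : f x ∈ K
          · exact h.2 (pk' (j x) hx)
          · exact h.1 ⟨x, by rw [pk (j x) hx]⟩)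
    (fun z h => h.2)
    (fun z z' h e => by
      rw [← ho z, ← ho z']
      congr 1
      exact Subtype.ext (Prod.ext e (by rw [(nw _ h.1).1, (nw _ (e ▸ h.1)).1])))
    (fun a b h => by rw [om, pk _ h]; rfl) (fun a b h => by rw [om]; exact pk' _ h)
    (fun z z' h h' => by rw [← ho z, ← ho z']; exact (mkeq _ _).2 (Or.inl ⟨h, h'⟩))
    (fun a b h => by
      by_cases hk : (o a).1.1 * (o b).1.1 ∈ K
      · exact Or.inr hk
      · left
        rw [om, pk _ hk]
        refine ⟨fun hr => ?_, hk⟩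
        rcases h with h | h
        · exact h.1 ((hP _ (nw _ h.1).2 _ (cq _)).1 hr hk)
        · exact h.1 ((hP _ (nw _ h.1).2 _ (cq _)).2 hr hk))
    (fun z h => mem_closure_iff_nhds.2 fun V hV => by
      obtain ⟨_, h1, x, rfl⟩ := mem_closure_iff_nhds.1 (cq (o z)) _
        (inter_mem hV (hK.compl.2.mem_nhds h.2))
      exact ⟨f x, h1.1, _, ⟨x, rfl⟩, by
        rw [ιx]; exact congrArg (fun q : Q => q.1.1) (pk (j x) h1.2)⟩)
  intro u hu
  by_contra h
  push Not at h
  have := key (mk ⟨(u, 0), Or.inr ⟨rfl, hu, Or.inl h.1⟩⟩)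
  rw [pk _ h.2] at this
  exact this h

end Pool.Agent.Lib.MP_4caafd_al.Inv
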