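import Mathlib
import Pool.Agent.Lib.MP_4caafd_al.Inv.Pull
import Pool.Agent.Lib.MP_4caafd_al.Inv.Alg

/-!
Discrete homomorphic images of ideally closed inverse semigroups are closed.
-/

namespace Pool.Agent.Lib.MP_4caafd_al.Inv

open Pool.Agent.Lib.MP_4caafd_al Topology Filter Set

universe u

variable {X M Y : Type u} [Semigroup X] [Monoid M] [Semigroup Y] [TopologicalSpace Y]

/-- The image of `φ` is all of `M` but the unit, and `j` embeds it as a discrete subsemigroup. -/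
structure Env (φ : X →ₙ* M) (j : M → Y) : Prop where
  cover : ∀ z, z = 1 ∨ z ∈ range φ
  mul : ∀ a ∈ range φ, ∀ b ∈ range φ, j (a * b) = j a * j b
  disc : ∀ b ∈ range φ, ∃ V ∈ 𝓝 (j b), ∀ x ∈ range φ, j x ∈ V → x = b

/-- An ultrafilter on the image that converges to a point of the remainder. -/
structure Lim (φ : X →ₙ* M) (j : M → Y) (𝒱 : Ultrafilter M) (y : Y) : Prop where
  mem : ∀ᶠ x in (𝒱 : Filter M), x ∈ range φ
  lim : Tendsto j 𝒱 (𝓝 y)
  out : ∀ b ∈ range φ, j b ≠ y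

variable {φ : X →ₙ* M} {j : M → Y} {𝒱 : Ultrafilter M} {y : Y} {i : M → M}

lemma ev_const {α β : Type*} {𝒲 : Ultrafilter α} {F : α → β} {s : Set β} (hs : s.Finite)
    (h : ∀ᶠ x in (𝒲 : Filter α), F x ∈ s) : ∃ b, ∀ᶠ x in (𝒲 : Filter α), F x = b := by
  obtain ⟨b, -, hb⟩ := (𝒲.map F).eq_pure_of_finite_mem hs h
  have : {b} ∈ 𝒲.map F := by rw [hb]; exact singleton_mem_pure
  exact ⟨b, this⟩

lemma Env.ideal (E : Env φ j) {x : M} (hx : x ∈ range φ) (c : M) :
    c * x ∈ range φ ∧ x * c ∈ range φ := by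
  rcases E.cover c with rfl | ⟨a, rfl⟩
  · simpa using hx
  · obtain ⟨b, rfl⟩ := hx
    exact ⟨⟨_, map_mul φ a b⟩, ⟨_, map_mul φ b a⟩⟩

lemma Env.jle (E : Env φ j) {x z : M} (hz : z ∈ range φ) (h : Jle x z) : x ∈ range φ := by
  obtain ⟨s, t, rfl⟩ := h
  exact (E.ideal (E.ideal hz s).1 t).2

omit [Semigroup Y] in
lemma Lim.nc [T1Space Y] (L : Lim φ j 𝒱 y) (b : M) : ¬∀ᶠ x in (𝒱 : Filter M), x = b := fun h => by
  obtain ⟨x, h1, rfl⟩ := (L.mem.and h).exists
  exact L.out x h1 (tendsto_const_nhds_iff.1 (L.lim.congr' (h.mono fun z hz => congrArg j hz)))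

section Cont

variable [ContinuousMul Y]

lemma Env.left (E : Env φ j) (c : M) :
    ∃ T : Y → Y, Continuous T ∧ ∀ x ∈ range φ, j (c * x) = T (j x) := by
  rcases E.cover c with rfl | hc
  · exact ⟨id, continuous_id, fun x _ => by simp⟩
  · exact ⟨(j c * ·), by fun_prop, fun x hx => E.mul _ hc _ hx⟩

lemma Env.right (E : Env φ j) (c : M) :
    ∃ T : Y → Y, Continuous T ∧ ∀ x ∈ range φ, j (x * c) = T (j x) := by
  rcases E.cover c with rfl | hc
  · exact ⟨id, continuous_id, fun x _ => by simp⟩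
  · exact ⟨(· * j c), by fun_prop, fun x hx => E.mul _ hx _ hc⟩

omit [ContinuousMul Y] in
lemma Lim.map (E : Env φ j) (L : Lim φ j 𝒱 y) {F : M → M} (hF : ∀ x ∈ range φ, F x ∈ range φ)
    (hT : ∃ T : Y → Y, Continuous T ∧ ∀ x ∈ range φ, j (F x) = T (j x))
    (h : ∀ b, ¬∀ᶠ x in (𝒱 : Filter M), F x = b) : ∃ y', Lim φ j (𝒱.map F) y' := by
  obtain ⟨T, T1, T2⟩ := hT
  have l : Tendsto (fun x => j (F x)) 𝒱 (𝓝 (T y)) :=
    ((T1.tendsto y).comp L.lim).congr' (L.mem.mono fun x hx => (T2 x hx).symm)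
  refine ⟨T y, L.mem.mono hF, l, fun b hb e => ?_⟩
  obtain ⟨V, hV, H⟩ := E.disc b hb
  refine h b ?_
  filter_upwards [L.mem, l.eventually (e ▸ hV)] with x h1 h2
  exact H _ (hF x h1) h2

lemma Lim.joint [T1Space Y] (E : Env φ j) (L : Lim φ j 𝒱 y) {c b : M}
    (h : ∀ᶠ x in (𝒱 : Filter M), ∀ᶠ x' in (𝒱 : Filter M), x * c * x' = b) :
    ∃ U ∈ 𝒱, ∀ x ∈ U, ∀ x' ∈ U, x * c * x' = b := by
  obtain ⟨T, T1, T2⟩ := E.right c
  have e : ∀ x ∈ range φ, ∀ x' ∈ range φ, j (x * c * x') = T (j x) * j x' := fun x hx x' hx' => by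
    rw [E.mul _ (E.ideal hx c).2 _ hx', T2 x hx]
  have hb : b ∈ range φ := by
    obtain ⟨x, h1, h2⟩ := (L.mem.and h).exists
    obtain ⟨x', rfl⟩ := h2.exists
    exact (E.ideal (E.ideal h1 c).2 x').2
  have a1 : ∀ᶠ x in (𝒱 : Filter M), T (j x) * y = j b := by
    filter_upwards [L.mem, h] with x h1 h2
    refine (tendsto_const_nhds_iff.1 ((L.lim.const_mul (T (j x))).congr' ?_)).symm
    filter_upwards [L.mem, h2] with x' h3 h4
    rw [← e x h1 x' h3, h4]
  have a2 : j b = T y * y :=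
    tendsto_const_nhds_iff.1 ((((T1.tendsto y).comp L.lim).mul_const y).congr' a1)
  obtain ⟨V, hV, H⟩ := E.disc b hb
  have c1 : Continuous fun p : Y × Y => T p.1 * p.2 := by fun_prop
  obtain ⟨A, hA, B, hB, hAB⟩ := mem_nhds_prod_iff.1
    (c1.continuousAt (x := (y, y)) |>.preimage_mem_nhds (a2 ▸ hV))
  refine ⟨{x | x ∈ range φ ∧ j x ∈ A ∧ j x ∈ B},
    L.mem.and ((L.lim.eventually hA).and (L.lim.eventually hB)), fun x hx x' hx' => ?_⟩
  refine H _ (E.ideal (E.ideal hx.1 c).2 x').2 ?_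
  rw [e x hx.1 x' hx'.1]
  exact hAB (mk_mem_prod hx.2.1 hx'.2.2)

end Cont

lemma ideal_not (g : M) : IsIdeal {w : M | ¬Jle g w} := fun _ hw _ =>
  ⟨fun h => hw (h.trans (jl _ _)), fun h => hw (h.trans (jr _ _))⟩

lemma finite_idem (hX : IsIdeallyClosed TzS.{u} X) (h : IS i) (c : Chain M)
    (hN : ∀ {x z : M}, z ∈ range φ → Jle x z → x ∈ range φ) {z : M} (hz : z ∈ range φ) :
    {g | g * g = g ∧ Jle g z ∧ Jle z g}.Finite := by
  by_contra hinf
  obtain ⟨e, he, e1, e2, -, H⟩ := h.base c z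
  choose! u u1 u2 using H
  have : NeBot (cofinite ⊓ 𝓟 {g | g * g = g ∧ Jle g z ∧ Jle z g}) :=
    cofinite_inf_principal_neBot_iff.2 hinf
  let 𝒲 := Ultrafilter.of (cofinite ⊓ 𝓟 {g | g * g = g ∧ Jle g z ∧ Jle z g})
  have w1 : ∀ᶠ g in (𝒲 : Filter M), g * g = g ∧ Jle g z ∧ Jle z g :=
    (Ultrafilter.of_le _).trans inf_le_right (mem_principal_self _)
  have w2 : ∀ b, ∀ᶠ g in (𝒲 : Filter M), g ≠ b := fun b =>
    (Ultrafilter.of_le _).trans inf_le_left (eventually_cofinite_ne b)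
  have w3 : ∀ᶠ x in (𝒲.map u : Filter M), x * i x = e ∧ Jle x z ∧ Jle z x :=
    w1.mono fun g hg => ⟨u1 g hg.1 hg.2.1 hg.2.2,
      (h.j1 _).trans ((u1 g hg.1 hg.2.1 hg.2.2).symm ▸ e1),
      e2.trans (u1 g hg.1 hg.2.1 hg.2.2 ▸ jl _ _)⟩
  have w4 : ∀ b, ∀ᶠ x in (𝒲.map u : Filter M), i x * x ≠ b := fun b =>
    (w1.and (w2 b)).mono fun g hg => by
      show i (u g) * u g ≠ b
      rw [u2 g hg.1.1 hg.1.2.1 hg.1.2.2]
      exact hg.2
  rcases null_ext hX φ (ideal_not z) (𝒲.map u) (w3.mono fun x hx => hN hz hx.2.1) (fun a => by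
    refine ⟨_, w3.and (w4 (a * e * i a)), fun x hx x' hx' hj => hx.2 ?_⟩
    have b1 : x * (a * x') * i (a * x') = x :=
      h.cancel_right c (hx.1.2.1.trans (mul_assoc x a x' ▸ hj))
    have b2 : i x * (x * (a * x')) = a * x' :=
      h.cancel_left c (((jr _ _).trans hx'.1.2.1).trans (mul_assoc x a x' ▸ hj))
    calc i x * x = i x * (x * (a * x') * i (a * x')) := by rw [b1]
      _ = a * x' * i (a * x') := by rw [← mul_assoc, b2]
      _ = a * e * i a := by rw [← hx'.1.1, h.im]; simp only [mul_assoc]) with H | ⟨b, H⟩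
  · obtain ⟨x, h1, h2⟩ := (w3.and H).exists
    exact h2 h1.2.2
  · obtain ⟨x, h1, rfl⟩ := ((w4 (i b * b)).and H).exists
    exact h1 rfl

lemma IS.grp (h : IS i) (c : Chain M) {g x : M} (h1 : x * i x = g) (h2 : i x * x = g) (s t : M) :
    Jle g (s * x * t) ↔ i s * (s * g) = g ∧ g * t * i t = g := by
  have xg : Jle x g := h1 ▸ h.j1 x
  constructor
  · intro H
    have a1 := h.cancel_left c (xg.trans (H.trans (jl _ t)))
    have a2 := h.cancel_right c (xg.trans (H.trans (mul_assoc s x t ▸ jr s (x * t))))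
    constructor
    · rw [← h1, ← mul_assoc s, ← mul_assoc, a1]
    · rw [← h2, mul_assoc (i x), mul_assoc (i x), a2]
  · rintro ⟨a1, a2⟩
    have b1 : g * x = x := by rw [← h1, h.h1]
    have b2 : x * g = x := by rw [← h2, h.b1]
    have b3 : x = i s * (s * x * t) * i t := by
      calc x = i s * (s * g) * x * (g * t * i t) := by rw [a1, a2, b1, b2]
        _ = i s * (s * (g * x * g) * t) * i t := by simp only [mul_assoc]
        _ = _ := by rw [b1, b2]
    exact (h1 ▸ jl x (i x)).trans ⟨_, _, b3⟩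

lemma IS.rle (h : IS i) {w x : M} (e : w * i w * x = w) : w * i w * (x * i x) = w * i w := by
  have he := h.ri w
  generalize hw : w * i w = r at he e
  subst e
  rw [h.im, h.ie he] at hw
  calc r * (x * i x) = r * (r * (x * i x)) := by rw [← mul_assoc r r, he]
    _ = r * x * (i x * r) := by rw [h.comm _ _ he (h.ri x)]; simp only [mul_assoc]
    _ = r := hw

variable {C : SGClass.{u}}

lemma Lim.not_group (hC : C = T1S ∨ C = T2S ∨ C = TzS) (hY : C Y) (hX : IsIdeallyClosed C X)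
    (E : Env φ j) (h : IS i) (c : Chain M) (L : Lim φ j 𝒱 y) {g : M}
    (H : ∀ᶠ x in (𝒱 : Filter M), x * i x = g ∧ i x * x = g) : False := by
  have := cm_of hC hY
  have := t1_of hC hY
  obtain ⟨x₁, hx₁⟩ := H.exists
  have hg : g * g = g := hx₁.1 ▸ h.ri x₁
  let con : Con M :=
    { r := fun x x' => ∀ s t, Jle g (s * x * t) ↔ Jle g (s * x' * t)
      iseqv := ⟨fun _ _ _ => Iff.rfl, fun h s t => (h s t).symm,
        fun h h' s t => (h s t).trans (h' s t)⟩
      mul' := fun {w x y z} h1 h2 s t => by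
        have a1 := h1 s (y * t)
        have a2 := h2 (s * x) t
        simp only [mul_assoc] at a1 a2 ⊢
        exact a1.trans a2 }
  let _ : TopologicalSpace con.Quotient := ⊥
  have : DiscreteTopology con.Quotient := ⟨rfl⟩
  have : ContinuousMul con.Quotient := ⟨continuous_of_discreteTopology⟩
  let f : X →ₙ* Y × con.Quotient :=
    { toFun := fun x => (j (φ x), (φ x : con.Quotient))
      map_mul' := fun a b => Prod.ext (by rw [map_mul]; exact E.mul _ ⟨a, rfl⟩ _ ⟨b, rfl⟩)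
        (by rw [map_mul]; rfl) }
  let K : Set (Y × con.Quotient) := Prod.snd ⁻¹' {d | ∃ w : M, ¬Jle g w ∧ (w : con.Quotient) = d}
  have Km : ∀ (v : Y) (w : M), (v, (w : con.Quotient)) ∉ K ↔ Jle g w := fun v w =>
    ⟨fun h => by_contra fun h' => h ⟨w, h', rfl⟩, fun h ⟨w', h1, h2⟩ =>
      h1 (by simpa using ((Con.eq _).1 h2 1 1).2 (by simpa using h))⟩
  have sing : ∀ a ∈ closure (f '' {x | Jle (φ x) g}), ∀ A ∈ 𝓝 a, ∀ b : M,
      (∀ x, Jle (φ x) g → f x ∈ A → φ x = b) → a ∈ range f := by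
    intro a ha A hA b hb
    obtain ⟨_, h1, x, hx, rfl⟩ := mem_closure_iff_nhds.1 ha A hA
    refine ⟨x, (mem_singleton_iff.1 ?_).symm⟩
    rw [← closure_singleton, mem_closure_iff_nhds]
    intro B hB
    obtain ⟨_, h2, x', hx', rfl⟩ := mem_closure_iff_nhds.1 ha _ (inter_mem hA hB)
    refine ⟨f x', h2.2, ?_⟩
    have : φ x' = φ x := (hb x' hx' h2.1).trans (hb x hx h1).symm
    show (j (φ x'), (φ x' : con.Quotient)) = (j (φ x), (φ x : con.Quotient))
    rw [this]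
  have near : ∀ a b x₀, f x₀ = a * b → ∃ A ∈ 𝓝 a, ∃ B ∈ 𝓝 b, ∀ x x', f x ∈ A → f x' ∈ B →
      φ x * φ x' = φ x₀ := by
    intro a b x₀ e
    obtain ⟨V, hV, HV⟩ := E.disc _ ⟨x₀, rfl⟩
    have c1 : Continuous fun p : (Y × con.Quotient) × (Y × con.Quotient) => (p.1 * p.2).1 := by
      fun_prop
    have e1 : j (φ x₀) = (a * b).1 := congrArg Prod.fst e
    obtain ⟨A, hA, B, hB, hAB⟩ := mem_nhds_prod_iff.1
      (c1.continuousAt (x := (a, b)) |>.preimage_mem_nhds (e1 ▸ hV))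
    refine ⟨A, hA, B, hB, fun x x' h1 h2 => HV _ ⟨_, map_mul φ x x'⟩ ?_⟩
    rw [E.mul _ ⟨x, rfl⟩ _ ⟨x', rfl⟩]
    exact hAB (mk_mem_prod h1 h2)
  have key := pull hC (prod_of hC hY) hX f (K := K) (W := closure (f '' {x | Jle (φ x) g}))
    ((isClopen_discrete _).preimage continuous_snd)
    (by
      rintro ⟨v, _⟩ ⟨w, h1, rfl⟩ ⟨v', d⟩
      induction d using Con.induction_on with
      | H a => exact ⟨⟨w * a, (ideal_not g w h1 a).1, rfl⟩, ⟨a * w, (ideal_not g w h1 a).2, rfl⟩⟩)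
    (closure_mono (image_subset_range _ _))
    (fun a ha b hb => ⟨map_mem_closure₂ continuous_mul ha hb (by
        rintro _ ⟨x, hx, rfl⟩ _ ⟨x', rfl⟩
        exact ⟨x * x', by rw [mem_ofPred_eq, map_mul]; exact (jl _ _).trans hx, map_mul _ _ _⟩),
      map_mem_closure₂ continuous_mul hb ha (by
        rintro _ ⟨x', rfl⟩ _ ⟨x, hx, rfl⟩
        exact ⟨x' * x, by rw [mem_ofPred_eq, map_mul]; exact (jr _ _).trans hx, map_mul _ _ _⟩)⟩)
    (fun a ha b hb => ⟨by
        rintro ⟨x₀, e⟩ hk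
        obtain ⟨A, hA, B, hB, hAB⟩ := near a b x₀ e
        obtain ⟨_, h1, x', rfl⟩ := mem_closure_iff_nhds.1 hb B hB
        have h2 : Jle g (φ x₀) := (Km _ _).1 (e ▸ hk : f x₀ ∉ K)
        refine sing a ha A hA (φ x₀ * i (φ x')) fun x hx h3 => ?_
        rw [← hAB x x' h3 h1] at h2 ⊢
        exact (h.cancel_right c (hx.trans h2)).symm, by
        rintro ⟨x₀, e⟩ hk
        obtain ⟨B, hB, A, hA, hAB⟩ := near b a x₀ e
        obtain ⟨_, h1, x', rfl⟩ := mem_closure_iff_nhds.1 hb B hB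
        have h2 : Jle g (φ x₀) := (Km _ _).1 (e ▸ hk : f x₀ ∉ K)
        refine sing a ha A hA (i (φ x') * φ x₀) fun x hx h3 => ?_
        rw [← hAB x' x h1 h3] at h2 ⊢
        exact (h.cancel_left c (hx.trans h2)).symm⟩)
    (y, (g : con.Quotient))
    (mem_closure_of_tendsto (L.lim.prodMk_nhds tendsto_const_nhds) (by
      filter_upwards [L.mem, H]
      rintro _ ⟨x, rfl⟩ hx
      refine ⟨x, hx.1 ▸ h.j1 _, Prod.ext rfl ((Con.eq _).2 fun s t => ?_)⟩
      rw [h.grp c hx.1 hx.2, h.grp c (x := g) (g := g) (by rw [h.ie hg, hg]) (by rw [h.ie hg, hg])]))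
  rcases key with ⟨x, e⟩ | hk
  · exact L.out _ ⟨x, rfl⟩ (congrArg Prod.fst e)
  · exact (Km _ _).2 Jle.rfl hk

lemma Lim.not_class (hC : C = T1S ∨ C = T2S ∨ C = TzS) (hY : C Y) (hX : IsIdeallyClosed C X)
    (E : Env φ j) (h : IS i) (c : Chain M) (L : Lim φ j 𝒱 y) (z : M) :
    ¬∀ᶠ x in (𝒱 : Filter M), Jle x z ∧ Jle z x := by
  have := cm_of hC hY
  have := t1_of hC hY
  intro H
  obtain ⟨x₀, h0, h1⟩ := (L.mem.and H).exists
  have fin := finite_idem (tz_of hC hX) h c (fun hz hx => E.jle hz hx) h0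
  obtain ⟨f, hf⟩ := ev_const (F := fun x => x * i x) fin (H.mono fun x hx =>
    ⟨h.ri x, (jl _ _).trans (hx.1.trans h1.2), (h1.1.trans hx.2).trans (h.j1 x)⟩)
  obtain ⟨g, hg⟩ := ev_const (F := fun x => i x * x) fin (H.mono fun x hx =>
    ⟨h.di x, (jr _ _).trans (hx.1.trans h1.2), (h1.1.trans hx.2).trans (h.j2 x)⟩)
  obtain ⟨a, a1, a2⟩ := (hf.and hg).exists
  obtain ⟨y', L'⟩ := L.map E (F := (i a * ·)) (fun x hx => (E.ideal hx _).1) (E.left _)
    (fun b hb => L.nc (a * b) (by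
      filter_upwards [hf, hb] with x h2 h3
      rw [← h3, ← mul_assoc, a1, ← h2, h.h1]))
  refine L'.not_group hC hY hX E h c (g := g) ((hf.and hg).mono fun x hx => ?_)
  show i a * x * i (i a * x) = g ∧ i (i a * x) * (i a * x) = g
  rw [h.im, h.ii]
  constructor
  · calc i a * x * (i x * a) = i a * (x * i x) * a := by simp only [mul_assoc]
      _ = g := by rw [hx.1, ← a1, h.b2, a2]
  · calc i x * a * (i a * x) = i x * (a * i a) * x := by simp only [mul_assoc]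
      _ = g := by rw [a1, ← hx.1, h.b2, hx.2]

lemma Lim.normal (hC : C = T1S ∨ C = T2S ∨ C = TzS) (hY : C Y)
    (E : Env φ j) (h : IS i) (c : Chain M) (L : Lim φ j 𝒱 y) :
    ∃ (𝒰 : Ultrafilter M) (y' : Y), Lim φ j 𝒰 y' ∧
      (∀ e, e * e = e → (∃ b, ∀ᶠ x in (𝒰 : Filter M), e * x = b) ∨
        ∀ᶠ x in (𝒰 : Filter M), e * x = x) ∧
      ∀ e, e * e = e → (∃ b, ∀ᶠ x in (𝒰 : Filter M), x * e = b) ∨
        ∀ᶠ x in (𝒰 : Filter M), x * e = x := by
  have := cm_of hC hY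
  have := t1_of hC hY
  obtain ⟨f, hf, Hf⟩ := c.min {e | e * e = e ∧ ∀ b, ¬∀ᶠ x in (𝒱 : Filter M), e * x = b}
    (fun _ h => h.1) ⟨1, one_mul 1, by simpa using L.nc⟩
  obtain ⟨y₁, L₁⟩ := L.map E (F := (f * ·)) (fun x hx => (E.ideal hx _).1) (E.left _) hf.2
  obtain ⟨g, hg, Hg⟩ := c.min
    {e | e * e = e ∧ ∀ b, ¬∀ᶠ x in (𝒱.map (f * ·) : Filter M), x * e = b}
    (fun _ h => h.1) ⟨1, one_mul 1, by simpa using L₁.nc⟩
  obtain ⟨y₂, L₂⟩ := L₁.map E (F := (· * g)) (fun x hx => (E.ideal hx _).2) (E.right _) hg.2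
  refine ⟨_, y₂, L₂, fun e he => ?_, fun e he => ?_⟩
  · by_cases h1 : ∃ b, ∀ᶠ x in (𝒱 : Filter M), e * f * x = b
    · obtain ⟨b, hb⟩ := h1
      exact Or.inl ⟨b * g, hb.mono fun x hx => by
        show e * (f * x * g) = b * g
        rw [← hx]; simp only [mul_assoc]⟩
    · have := Hf (e * f) ⟨h.mi he hf.1, not_exists.1 h1⟩ (by rw [mul_assoc, hf.1])
      exact Or.inr (Eventually.of_forall (f := 𝒱) fun x => by
        show e * (f * x * g) = f * x * g
        rw [← mul_assoc, ← mul_assoc, this])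
  · by_cases h1 : ∃ b, ∀ᶠ x in (𝒱.map (f * ·) : Filter M), x * (e * g) = b
    · obtain ⟨b, hb⟩ := h1
      exact Or.inl ⟨b, Eventually.mono (f := 𝒱) hb fun x hx => by
        show f * x * g * e = b
        rw [mul_assoc, h.comm g e hg.1 he]; exact hx⟩
    · have := Hg (e * g) ⟨h.mi he hg.1, not_exists.1 h1⟩ (by rw [mul_assoc, hg.1])
      exact Or.inr (Eventually.of_forall (f := 𝒱) fun x => by
        show f * x * g * e = f * x * g
        rw [mul_assoc, h.comm g e hg.1 he, this])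

theorem Lim.elim (hC : C = T1S ∨ C = T2S ∨ C = TzS) (hY : C Y) (hX : IsIdeallyClosed C X)
    (E : Env φ j) (h : IS i) (c : Chain M) (L₀ : Lim φ j 𝒱 y) : False := by
  have := cm_of hC hY
  have := t1_of hC hY
  obtain ⟨𝒰, y', L, HL, HR⟩ := L₀.normal hC hY E h c
  have nc := L.not_class hC hY hX E h c
  have β : ¬∀ᶠ x in (𝒰 : Filter M), ∀ᶠ x' in (𝒰 : Filter M), Jle x' x := fun H => by
    obtain ⟨x₀, h1, h2⟩ := h.jmin c (S := {x | ∀ᶠ x' in (𝒰 : Filter M), Jle x' x}) H.exists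
    exact nc x₀ ((H.and h1).mono fun x hx => ⟨hx.2, h2 x hx.1 hx.2⟩)
  have γ : ∀ ε : M → M, (∀ x, ε x * ε x = ε x) → (∀ x, Jle (ε x) x) →
      ∀ᶠ x in (𝒰 : Filter M), ∃ q, ∀ᶠ x' in (𝒰 : Filter M), ε x * x' = q := fun ε e1 e2 =>
    (Ultrafilter.eventually_not.2 β).mono fun x hx => (HL _ (e1 x)).resolve_right fun H =>
      hx (H.mono fun x' h1 => (h1 ▸ jl (ε x) x').trans (e2 x))
  have inB : ∀ e q, e * e = e → (∀ᶠ x' in (𝒰 : Filter M), e * x' = q) →
      ∀ᶠ x' in (𝒰 : Filter M), q * i q * x' = q := fun e q he H => H.mono fun x' h1 => by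
    rw [← h1, h.im, h.ie he]
    have := h.lc (h.ri x') he x'
    simp only [mul_assoc] at this ⊢
    rw [this, h.b1, ← mul_assoc, he]
  have γr := γ (fun x => x * i x) h.ri fun x => jl _ _
  obtain ⟨a, ha, top⟩ : ∃ a, (∀ᶠ x in (𝒰 : Filter M), a * i a * x = a) ∧
      ∀ z, (∀ᶠ x in (𝒰 : Filter M), z * i z * x = z) → z * i z * a = z := by
    obtain ⟨x₁, q₁, h1⟩ := γr.exists
    obtain ⟨_, ⟨a, ha, rfl⟩, H⟩ := c.max
      {e | ∃ z, (∀ᶠ x in (𝒰 : Filter M), z * i z * x = z) ∧ z * i z = e}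
      (by rintro _ ⟨z, -, rfl⟩; exact h.ri z) ⟨_, q₁, inB _ _ (h.ri x₁) h1, rfl⟩
    refine ⟨a, ha, fun z hz => ?_⟩
    obtain ⟨x, ⟨h2, h3⟩, s, hs⟩ := ((ha.and hz).and γr).exists
    have up : ∀ w, (∀ᶠ x in (𝒰 : Filter M), w * i w * x = w) → w * i w * x = w →
        w * i w * s = w := fun w hw e => by
      obtain ⟨x', h4, h5⟩ := (hw.and hs).exists
      rw [← h5, ← mul_assoc, h.rle e, h4]
    have h7 := up a ha h2
    have h8 := H _ ⟨s, inB _ _ (h.ri x) hs, rfl⟩ (h.rle h7)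
    have h9 : s = a := by rw [← h7, ← h8, h.h1]
    exact h9 ▸ up z hz h3
  have δ : ∀ e q, e * e = e → (∀ᶠ x' in (𝒰 : Filter M), e * x' = q) → e * a = q := by
    intro e q he H
    obtain ⟨x', h1, h2⟩ := (H.and ha).exists
    have h3 := top q (inB e q he H)
    calc e * a = e * (a * i a * x') := by rw [h2]
      _ = a * i a * q := by rw [h.lc he (h.ri a), h1]
      _ = a * i a * (q * i q * a) := by rw [h3]
      _ = q := by rw [h.lc (h.ri a) (h.ri q), h.h1, h3]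
  have ax : ∀ᶠ x in (𝒰 : Filter M), Jle a x := ha.mono fun x hx => hx ▸ jr _ x
  have hK : IsIdeal {z : M | ∀ᶠ x in (𝒰 : Filter M), Jle z x} := fun z hz w =>
    ⟨Eventually.mono hz fun x hx => (jl _ _).trans hx,
      Eventually.mono hz fun x hx => (jr _ _).trans hx⟩
  rcases null_ext (tz_of hC hX) φ hK 𝒰 L.mem (fun d => by
    have a1 : ∀ᶠ x in (𝒰 : Filter M), ∀ᶠ x' in (𝒰 : Filter M), x * d * x' = x * d * a := by
      filter_upwards [γ (fun x => i (x * d) * (x * d)) (fun x => h.di _)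
        fun x => (jr _ _).trans (jl _ _)]
      rintro x ⟨q, hq⟩
      filter_upwards [hq] with x' h1
      rw [← h.b1 (x * d), mul_assoc (x * d), h1, mul_assoc (x * d), δ _ q (h.di _) hq]
    obtain ⟨b, hb⟩ := (HR _ (h.ri (d * a))).resolve_right fun H =>
      nc a ((H.and ax).mono fun x hx => ⟨hx.1 ▸ (jr x _).trans ((jl _ _).trans (jr d a)), hx.2⟩)
    obtain ⟨U, hU, H⟩ := L.joint E (c := d) (b := b * (d * a)) (by
      filter_upwards [a1, hb] with x h1 h2
      filter_upwards [h1] with x' h3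
      rw [h3, ← h2, mul_assoc x (_ * _), h.h1, mul_assoc])
    refine ⟨U, hU, fun x hx x' hx' => mem_of_superset hU fun w hw => ?_⟩
    show Jle (x * d * x') w
    rw [H x hx x' hx', ← H w hw x' hx']
    exact (jl _ _).trans (jl _ _)) with H | ⟨b, H⟩
  · refine nc a ?_
    filter_upwards [L.mem, H, ax] with x h1 h2 h3
    refine ⟨?_, h3⟩
    have : ∀ x', ∃ e, Jle x x' → (e * e = e ∧ Jle e x ∧ Jle x e) ∧ e * (x' * i x') = e := by
      intro x'
      by_cases hx : Jle x x'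
      · obtain ⟨u, u1, u2⟩ := h.below hx
        exact ⟨u * i u, fun _ => ⟨⟨h.ri u, (jl _ _).trans ((h.j2 u).trans (u2 ▸ jr _ _)),
          (h.j2 x).trans (u2 ▸ (jr _ _).trans (h.j1 u))⟩, u1⟩⟩
      · exact ⟨1, fun h' => absurd h' hx⟩
    choose ε hε using this
    obtain ⟨e, he⟩ := ev_const (F := ε)
      (finite_idem (tz_of hC hX) h c (fun hz hx => E.jle hz hx) h1)
      (Eventually.mono h2 fun x' hx' => (hε x' hx').1)
    have h4 : ∀ᶠ x' in (𝒰 : Filter M), Jle x x' ∧ (e * e = e ∧ Jle e x ∧ Jle x e) ∧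
        e * (x' * i x') = e := (he.and h2).mono fun x' hx' => ⟨hx'.2, hx'.1 ▸ hε x' hx'.2⟩
    obtain ⟨-, -, ⟨e1, e2, e3⟩, -⟩ := h4.exists
    rcases HL e e1 with ⟨q, hq⟩ | hq
    · obtain ⟨x', h5, h6⟩ := (h4.and hq).exists
      exact e3.trans ⟨e, i x', by rw [δ e q e1 hq, ← h6, mul_assoc, h5.2.2]⟩
    · exact absurd ((h4.and hq).mono fun x' hx' =>
        ⟨(hx'.2 ▸ jl e x').trans e2, hx'.1.1⟩) (nc x)
  · exact L.nc b H

theorem main (hC : C = T1S ∨ C = T2S ∨ C = TzS)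
    (H : ∀ x : X, ∃! y, x * y * x = x ∧ y * x * y = y) (hX : IsIdeallyClosed C X) :
    IsProjectivelyClosed C X := by
  intro con Y _ _ hY k hk
  have := cm_of hC hY
  obtain ⟨i₀, h₀⟩ := exists_IS H
  have hI : IsIdeal (∅ : Set X) := fun _ hx => hx.elim
  have cl : IsCClosed TzS.{u} X := by
    intro Y' _ _ hY' f hf
    let q : (reesCon ∅ hI).Quotient →ₙ* Y' :=
      { toFun := fun z => Con.liftOn z f (fun x y hxy => by
          rcases hxy with h | h
          · exact h.1.elim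
          · rw [h])
        map_mul' := fun a b => Con.induction_on₂ a b fun _ _ => map_mul f _ _ }
    have e : f = q ∘ fun x : X => (x : (reesCon ∅ hI).Quotient) := rfl
    have bij : Function.Bijective fun x : X => (x : (reesCon ∅ hI).Quotient) :=
      ⟨fun x y hxy => ((Con.eq _).1 hxy).resolve_left fun h => h.1,
        fun z => Con.induction_on z fun x => ⟨x, rfl⟩⟩
    rw [e, bij.2.range_comp]
    refine tz_of hC hX ∅ hI Y' hY' q ?_
    let _ : TopologicalSpace X := ⊥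
    let _ : TopologicalSpace (reesCon ∅ hI).Quotient := ⊥
    have : DiscreteTopology X := ⟨rfl⟩
    have : DiscreteTopology (reesCon ∅ hI).Quotient := ⟨rfl⟩
    have := hf.comp (Equiv.ofBijective _ bij).toHomeomorphOfDiscrete.symm.isEmbedding
    convert this using 1
    funext z
    obtain ⟨x, rfl⟩ := (Equiv.ofBijective _ bij).toHomeomorphOfDiscrete.surjective z
    rw [Function.comp_apply, Homeomorph.symm_apply_apply]
    rfl
  let φ : X →ₙ* WithOne con.Quotient :=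
    { toFun := fun x => ((x : con.Quotient) : WithOne con.Quotient)
      map_mul' := fun _ _ => rfl }
  have rφ : ∀ z : con.Quotient, (z : WithOne con.Quotient) ∈ range φ := fun z =>
    Con.induction_on z fun x => ⟨x, rfl⟩
  have cover : ∀ z, z = 1 ∨ z ∈ range φ := fun z => by
    induction z using WithOne.recOneCoe with
    | one => exact Or.inl rfl
    | coe z => exact Or.inr (rφ z)
  obtain ⟨i, h⟩ := h₀.image φ cover
  have c := h₀.chain_image (h₀.chain cl) φ cover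
  refine closure_subset_iff_isClosed.1 fun y hy => by_contra fun hy' => ?_
  let j : WithOne con.Quotient → Y := fun z => WithOne.recOneCoe y k z
  have E : Env φ j := ⟨cover, by
    rintro _ ⟨a, rfl⟩ _ ⟨b, rfl⟩
    exact map_mul k (a : con.Quotient) b, by
    rintro _ ⟨b, rfl⟩
    let _ : TopologicalSpace con.Quotient := ⊥
    have : DiscreteTopology con.Quotient := ⟨rfl⟩
    obtain ⟨W, hW, e⟩ := hk.isInducing.isOpen_iff.1 (isOpen_discrete {(b : con.Quotient)})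
    refine ⟨W, hW.mem_nhds (show (b : con.Quotient) ∈ k ⁻¹' W by rw [e]; rfl), ?_⟩
    rintro _ ⟨x, rfl⟩ hx
    have : (x : con.Quotient) ∈ k ⁻¹' W := hx
    rw [e] at this
    exact congrArg (fun z : con.Quotient => (z : WithOne con.Quotient)) this⟩
  have : NeBot (comap k (𝓝 y)) :=
    comap_neBot_iff_frequently.2 (mem_closure_iff_frequently.1 hy)
  let 𝒲 := Ultrafilter.of (comap k (𝓝 y))
  have l : Tendsto k 𝒲 (𝓝 y) := tendsto_comap.mono_left (Ultrafilter.of_le _)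
  refine Lim.elim (𝒱 := Ultrafilter.map (fun z : con.Quotient => (z : WithOne con.Quotient)) 𝒲)
    (y := y) hC hY hX E h c ⟨eventually_map.2 (Eventually.of_forall rφ), l, ?_⟩
  rintro _ ⟨b, rfl⟩ e
  exact hy' ⟨b, e⟩

end Pool.Agent.Lib.MP_4caafd_al.Inv
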